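import Pool.Agent.H379R3.CDQ.Stmts

set_option autoImplicit false

namespace Pool.Agent.H584R3.CDQ

open Pool.Agent.H379R3.CDQ

theorem taskFin : TaskFin := by
  intro hstep hfix hodd G _ _ _ _ M _ _ _ hD hP n hn hF2
  suffices H : ∀ (c : ℕ) (M : Type) [AddCommGroup M] [DistribMulAction G M] [Finite M],
      Nat.card M = c → IsDisc G M → HVanish G M n from H _ M rfl hD
  intro c
  induction c using Nat.strong_induction_on with
  | _ c ih =>
    intro M _ _ _ hc hD
    rcases Nat.even_or_odd (Nat.card M) with he | ho
    · obtain ⟨x, hx0, hx2, hxf⟩ := hfix G M hD hP he
      have hxx : x + x = 0 := by rw [← two_nsmul]; exact hx2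
      have hneg : -x = x := by rw [neg_eq_iff_add_eq_zero]; exact hxx
      let N : AddSubgroup M :=
        { carrier := {m | m = 0 ∨ m = x}
          zero_mem' := Or.inl rfl
          add_mem' := by
            rintro a b (rfl | rfl) (rfl | rfl)
            · left; simp
            · right; simp
            · right; simp
            · left; exact hxx
          neg_mem' := by
            rintro a (rfl | rfl)
            · left; simp
            · right; exact hneg }
      have hN : ∀ m, m ∈ N ↔ m = 0 ∨ m = x := fun m => Iff.rfl
      have hmap : ∀ g : G, N ≤ N.comap (DistribSMul.toAddMonoidHom M g) := by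
        intro g m hm
        rw [AddSubgroup.mem_comap, hN]
        rcases (hN m).1 hm with rfl | rfl
        · left; simp
        · right; exact hxf g
      let act : DistribMulAction G (M ⧸ N) :=
        { smul := fun g q => QuotientAddGroup.map N N (DistribSMul.toAddMonoidHom M g) (hmap g) q
          one_smul := by
            intro q
            induction q using QuotientAddGroup.induction_on with
            | H m =>
              change QuotientAddGroup.map N N (DistribSMul.toAddMonoidHom M (1 : G)) (hmap 1)
                (m : M ⧸ N) = _
              rw [QuotientAddGroup.map_mk]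
              simp
          mul_smul := by
            intro g h q
            induction q using QuotientAddGroup.induction_on with
            | H m =>
              change QuotientAddGroup.map N N (DistribSMul.toAddMonoidHom M (g * h)) (hmap _)
                (m : M ⧸ N) = QuotientAddGroup.map N N (DistribSMul.toAddMonoidHom M g) (hmap g)
                  (QuotientAddGroup.map N N (DistribSMul.toAddMonoidHom M h) (hmap h)
                    (m : M ⧸ N))
              rw [QuotientAddGroup.map_mk, QuotientAddGroup.map_mk, QuotientAddGroup.map_mk]
              simp [mul_smul]
          smul_zero := fun g => map_zero _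
          smul_add := fun g a b => map_add _ a b }
      have hact : ∀ (g : G) (m : M), (QuotientAddGroup.mk' N) (g • m) =
          g • (QuotientAddGroup.mk' N) m := by
        intro g m
        rfl
      have hD' : IsDisc G (M ⧸ N) := by
        intro q
        obtain ⟨m, rfl⟩ := QuotientAddGroup.mk'_surjective N q
        have h1 : MulAction.stabilizer G m ≤ MulAction.stabilizer G (QuotientAddGroup.mk' N m) := by
          intro g hg
          rw [MulAction.mem_stabilizer_iff] at hg ⊢
          rw [← hact, hg]
        exact Subgroup.isOpen_mono h1 (hD m)
      have hker : ∀ m, QuotientAddGroup.mk' N m = 0 ↔ m = 0 ∨ m = x := by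
        intro m
        rw [QuotientAddGroup.mk'_apply, QuotientAddGroup.eq_zero_iff, hN]
      have hcard : Nat.card (M ⧸ N) < Nat.card M := by
        by_contra hcon
        have hbij := Function.Surjective.bijective_of_nat_card_le
          (QuotientAddGroup.mk'_surjective N) (not_lt.1 hcon)
        apply hx0
        apply hbij.1
        rw [map_zero, hker]
        right; rfl
      refine hstep G M (M ⧸ N) hD hD' (QuotientAddGroup.mk' N)
        (QuotientAddGroup.mk'_surjective N) hact x hx0 hx2 hxf hker n hn hF2 ?_
      exact ih (Nat.card (M ⧸ N)) (hc ▸ hcard) (M ⧸ N) rfl hD'
    · exact hodd G M hD hP ho n hn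

end Pool.Agent.H584R3.CDQ
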